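import Pool.Agent.helper7.DF.Spec
import Pool.Agent.helper99.FI.THS

set_option autoImplicit false

open Finset

namespace Pool.Agent.DFO

open Pool.Agent.LDH (ee)
open ArithmeticFunction (vonMangoldt)

theorem MAI_re (x : ℝ) : (ee (-(2 / 3)) * ee x).re = Real.cos (2 * Real.pi * (x - 2 / 3)) := by
  unfold ee
  rw [← Complex.exp_add]
  have : (((2 * Real.pi * (-(2 / 3)) : ℝ) : ℂ) * Complex.I + ((2 * Real.pi * x : ℝ) : ℂ) * Complex.I) =
      ((2 * Real.pi * (x - 2 / 3) : ℝ) : ℂ) * Complex.I := by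
    push_cast
    ring
  rw [this, Complex.exp_ofReal_mul_I_re]

theorem MAI_norm (x : ℝ) : ‖ee x‖ = 1 := by
  unfold ee
  exact Complex.norm_exp_ofReal_mul_I _

theorem MAI_pt (n p : ℕ) (hp : 0 < p) (h : 3 * (n % p) ≤ p) :
    1 / 2 + (ee (-(2 / 3)) * ee ((n : ℝ) / p)).re ≤ 0 := by
  rw [MAI_re]
  have hpR : (0 : ℝ) < p := by exact_mod_cast hp
  have hn : (n : ℝ) = p * (n / p : ℕ) + (n % p : ℕ) := by exact_mod_cast (Nat.div_add_mod n p).symm
  set t : ℝ := ((n % p : ℕ) : ℝ) / p with ht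
  have ht0 : 0 ≤ t := by positivity
  have ht1 : t ≤ 1 / 3 := by
    rw [ht, div_le_iff₀ hpR]
    have : (3 : ℝ) * (n % p : ℕ) ≤ p := by exact_mod_cast h
    linarith
  have e0 : (n : ℝ) / p = (n / p : ℕ) + t := by
    rw [ht]
    nth_rewrite 1 [hn]
    field_simp
  have e1 : 2 * Real.pi * ((n : ℝ) / p - 2 / 3) =
      (2 * Real.pi * (t - 1 / 6) - Real.pi) + (n / p : ℕ) * (2 * Real.pi) := by
    rw [e0]
    ring
  rw [e1, Real.cos_add_nat_mul_two_pi, Real.cos_sub_pi]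
  have h3 : Real.cos (Real.pi / 3) ≤ Real.cos |2 * Real.pi * (t - 1 / 6)| := by
    refine Real.cos_le_cos_of_nonneg_of_le_pi (abs_nonneg _) ?_ ?_
    · linarith [Real.pi_pos]
    · rw [abs_le]
      constructor
      · nlinarith [Real.pi_pos]
      · nlinarith [Real.pi_pos]
  rw [Real.cos_abs, Real.cos_pi_div_three] at h3
  linarith

/-- Sums over primes from `THS`. -/
theorem MAI_theta : ∃ x₀ : ℕ, ∀ k : ℕ, x₀ ≤ k → ∀ u : ℕ, u ≤ 2 * k →
    |∑ m ∈ Ioc 0 u, (if m.Prime then vonMangoldt m else 0) - u| ≤ k / Real.log k := by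
  obtain ⟨x₀, h⟩ := Pool.Agent.FI.THS 1 0
  refine ⟨x₀, fun k hk u hu => ?_⟩
  have h1 := h k hk 1 (le_refl 1) (by simp) 0 u (by rw [Nat.cast_one]; exact isCoprime_one_right) hu
  have e1 : ∑ l ∈ Ioc (0 : ℤ) u with ((1 : ℕ) : ℤ) ∣ l - 0, Pool.Agent.FI.th l =
      ∑ m ∈ Ioc 0 u, (if m.Prime then vonMangoldt m else 0) := by
    symm
    refine Finset.sum_bij (fun m _ => (m : ℤ)) ?_ ?_ ?_ ?_
    · intro m hm
      have hm' := Finset.mem_Ioc.1 hm
      rw [Finset.mem_filter, Finset.mem_Ioc]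
      refine ⟨⟨by exact_mod_cast hm'.1, by exact_mod_cast hm'.2⟩, ?_⟩
      simp
    · intro m _ m' _ hmm
      exact_mod_cast hmm
    · intro l hl
      rw [Finset.mem_filter, Finset.mem_Ioc] at hl
      refine ⟨l.toNat, ?_, ?_⟩
      · rw [Finset.mem_Ioc]
        omega
      · exact Int.toNat_of_nonneg hl.1.1.le
    · intro m _
      rw [Pool.Agent.FI.THS_th]
  rw [e1] at h1
  simpa using h1

/-- The numbers. -/
theorem MAI_num (C : ℝ) (B : ℕ) (δ : ℝ) (hδ : 0 < δ) : ∀ᶠ k : ℕ in Filter.atTop,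
    C * 2 ^ B / Real.log k ^ 2 + C * 2 ^ B * (Real.log k ^ B / (k : ℝ) ^ δ) +
      3 * (Real.log k / (k : ℝ) ^ (1 / 2 : ℝ)) + 1 / 2 / (k : ℝ) + 1 / Real.log k < 1 / 40 := by
  have t0 : Filter.Tendsto (fun k : ℕ => (k : ℝ)) Filter.atTop Filter.atTop := tendsto_natCast_atTop_atTop
  have t1 : Filter.Tendsto (fun k : ℕ => Real.log (k : ℝ)) Filter.atTop Filter.atTop := Real.tendsto_log_atTop.comp t0
  have t2 : Filter.Tendsto (fun k : ℕ => C * 2 ^ B / Real.log k ^ 2) Filter.atTop (nhds 0) :=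
    Filter.Tendsto.div_atTop tendsto_const_nhds ((Filter.tendsto_pow_atTop (by norm_num)).comp t1)
  have t3 : Filter.Tendsto (fun k : ℕ => C * 2 ^ B * (Real.log k ^ B / (k : ℝ) ^ δ)) Filter.atTop (nhds 0) := by
    have h1 := ((isLittleO_log_rpow_rpow_atTop (B : ℝ) hδ).tendsto_div_nhds_zero).comp t0
    have h2 : Filter.Tendsto (fun k : ℕ => Real.log k ^ B / (k : ℝ) ^ δ) Filter.atTop (nhds 0) := by
      refine h1.congr fun k => ?_
      simp only [Function.comp, Real.rpow_natCast]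
    have h3 := h2.const_mul (C * 2 ^ B)
    rwa [mul_zero] at h3
  have t4 : Filter.Tendsto (fun k : ℕ => 3 * (Real.log k / (k : ℝ) ^ (1 / 2 : ℝ))) Filter.atTop (nhds 0) := by
    have h1 := ((isLittleO_log_rpow_atTop (show (0 : ℝ) < 1 / 2 by norm_num)).tendsto_div_nhds_zero).comp t0
    have h3 := h1.const_mul 3
    rw [mul_zero] at h3
    exact h3
  have t5 : Filter.Tendsto (fun k : ℕ => 1 / 2 / (k : ℝ)) Filter.atTop (nhds 0) :=
    Filter.Tendsto.div_atTop tendsto_const_nhds t0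
  have t6 : Filter.Tendsto (fun k : ℕ => 1 / Real.log k) Filter.atTop (nhds 0) :=
    Filter.Tendsto.div_atTop tendsto_const_nhds t1
  have t := (((t2.add t3).add t4).add t5).add t6
  simp only [add_zero] at t
  exact t.eventually_lt_const (by norm_num)

theorem MAI (hVAU : VAU_stmt) : MAI_stmt := by
  intro A
  obtain ⟨δ, C, B, hδ, hC, hV⟩ := hVAU A
  obtain ⟨x₀, hT⟩ := MAI_theta
  have ev := MAI_num C B δ hδ
  have t1 : Filter.Tendsto (fun k : ℕ => Real.log (k : ℝ)) Filter.atTop Filter.atTop :=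
    Real.tendsto_log_atTop.comp tendsto_natCast_atTop_atTop
  obtain ⟨k₀, hk₀⟩ := Filter.eventually_atTop.1 ((ev.and (t1.eventually_ge_atTop 1)).and
    (Filter.eventually_ge_atTop (max x₀ 20)))
  refine ⟨2 * B + 4, k₀, fun k hk n hn1 hn2 => ?_⟩
  obtain ⟨⟨hnum, hlog⟩, hkx⟩ := hk₀ k hk
  have hx0 : x₀ ≤ k := le_trans (le_max_left _ _) hkx
  have hk20 : 20 ≤ k := le_trans (le_max_right _ _) hkx
  have hkR : (20 : ℝ) ≤ k := by exact_mod_cast hk20
  have hk0 : (0 : ℝ) < k := by linarith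
  by_contra hhit
  -- the interval
  set a : ℕ := 11 * k / 20 with ha
  set b : ℕ := 3 * k / 5 with hb
  have hab : a ≤ b := by omega
  have hbk : b ≤ k := by omega
  have hk2a : k ≤ 2 * a := by omega
  have hL0 : (0 : ℝ) < Real.log k := by linarith
  have hkn : (k : ℝ) ≤ n := by
    refine le_trans ?_ hn1
    have : (1 : ℝ) ≤ Real.log k ^ (2 * B + 4) := one_le_pow₀ hlog
    nlinarith
  have hnA : (n : ℝ) ≤ (k : ℝ) ^ A := by exact_mod_cast hn2
  have hS := hV k a b n (by omega) hab hbk hk2a hkn hnA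
  set S : ℂ := ∑ m ∈ Ioc a b, (vonMangoldt m : ℂ) * ee ((n : ℝ) / m) with hSdef
  -- the prime points
  have hpr : ∀ p ∈ Ioc a b, p.Prime → 1 / 2 + (ee (-(2 / 3)) * ee ((n : ℝ) / p)).re ≤ 0 := by
    intro p hp hpp
    have hp' := Finset.mem_Ioc.1 hp
    have hp5 : 5 * p ≤ 3 * k := by omega
    have hp2 : k < 2 * p := by omega
    have hpk : p ≤ k := by omega
    refine MAI_pt n p hpp.pos ?_
    by_contra hcon
    apply hhit
    refine ⟨p, hpp, hpk, ?_⟩
    have hmod : k % p = k - p := by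
      rw [Nat.mod_eq_sub_mod hpk, Nat.mod_eq_of_lt (by omega)]
    rw [hmod]
    omega
  -- lower bound
  have hlow : ((b : ℝ) - a) - 2 * (k / Real.log k) ≤ ∑ m ∈ Ioc a b, vonMangoldt m := by
    have h1 := hT k hx0 a (by omega)
    have h2 := hT k hx0 b (by omega)
    have e1 : ∑ m ∈ Ioc 0 b, (if m.Prime then vonMangoldt m else 0) =
        ∑ m ∈ Ioc 0 a, (if m.Prime then vonMangoldt m else 0) + ∑ m ∈ Ioc a b, (if m.Prime then vonMangoldt m else 0) := by
      rw [← Finset.sum_Ioc_consecutive _ (Nat.zero_le a) hab]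
    have e2 : ∑ m ∈ Ioc a b, (if m.Prime then vonMangoldt m else 0) ≤ ∑ m ∈ Ioc a b, vonMangoldt m := by
      refine Finset.sum_le_sum fun m _ => ?_
      split_ifs
      · exact le_refl _
      · exact ArithmeticFunction.vonMangoldt_nonneg
    have h1' := abs_le.1 h1
    have h2' := abs_le.1 h2
    linarith [h1'.1, h1'.2, h2'.1, h2'.2]
  -- upper bound
  have hup : ∑ m ∈ Ioc a b, vonMangoldt m * (1 / 2 + (ee (-(2 / 3)) * ee ((n : ℝ) / m)).re) ≤
      3 * Real.sqrt k * Real.log k := by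
    have h1 : ∑ m ∈ Ioc a b, vonMangoldt m * (1 / 2 + (ee (-(2 / 3)) * ee ((n : ℝ) / m)).re) ≤
        ∑ m ∈ Ioc a b, (if m.Prime then 0 else vonMangoldt m * (3 / 2)) := by
      refine Finset.sum_le_sum fun m hm => ?_
      split_ifs with hmp
      · exact mul_nonpos_of_nonneg_of_nonpos ArithmeticFunction.vonMangoldt_nonneg (hpr m hm hmp)
      · refine mul_le_mul_of_nonneg_left ?_ ArithmeticFunction.vonMangoldt_nonneg
        have : (ee (-(2 / 3)) * ee ((n : ℝ) / m)).re ≤ 1 := by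
          rw [MAI_re]
          exact Real.cos_le_one _
        linarith
    have h2 : ∑ m ∈ Ioc a b, (if m.Prime then 0 else vonMangoldt m * (3 / 2)) ≤
        ∑ m ∈ Ioc 0 k, (if m.Prime then 0 else vonMangoldt m * (3 / 2)) := by
      refine Finset.sum_le_sum_of_subset_of_nonneg ?_ ?_
      · intro m hm
        have := Finset.mem_Ioc.1 hm
        rw [Finset.mem_Ioc]
        omega
      · intro m _ _
        split_ifs
        · exact le_refl _
        · exact mul_nonneg ArithmeticFunction.vonMangoldt_nonneg (by norm_num)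
    have h3 : ∑ m ∈ Ioc 0 k, (if m.Prime then 0 else vonMangoldt m * (3 / 2)) =
        (3 / 2) * (Chebyshev.psi k - Chebyshev.theta k) := by
      rw [Chebyshev.psi_sub_theta_eq_sum_not_prime, Nat.floor_natCast, Finset.sum_filter, Finset.mul_sum]
      refine Finset.sum_congr rfl fun m _ => ?_
      by_cases hmp : m.Prime
      · rw [if_pos hmp, if_neg (not_not.2 hmp), mul_zero]
      · rw [if_neg hmp, if_pos hmp]
        ring
    have h4 := Chebyshev.psi_sub_theta_le (x := (k : ℝ)) (by linarith)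
    rw [h3] at h2
    linarith
  -- the sum in terms of S
  have hsum : ∑ m ∈ Ioc a b, vonMangoldt m * (1 / 2 + (ee (-(2 / 3)) * ee ((n : ℝ) / m)).re) =
      1 / 2 * ∑ m ∈ Ioc a b, vonMangoldt m + (ee (-(2 / 3)) * S).re := by
    rw [hSdef, Finset.mul_sum, Finset.mul_sum, Complex.re_sum, ← Finset.sum_add_distrib]
    refine Finset.sum_congr rfl fun m _ => ?_
    rw [show ee (-(2 / 3)) * ((vonMangoldt m : ℂ) * ee ((n : ℝ) / m)) =
      (vonMangoldt m : ℂ) * (ee (-(2 / 3)) * ee ((n : ℝ) / m)) by ring, Complex.re_ofReal_mul]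
    ring
  have hre : -‖S‖ ≤ (ee (-(2 / 3)) * S).re := by
    have h1 := Complex.abs_re_le_norm (ee (-(2 / 3)) * S)
    rw [norm_mul, MAI_norm, one_mul] at h1
    linarith [(abs_le.1 h1).1]
  -- bound of `‖S‖`
  have hSb : ‖S‖ ≤ k * (C * 2 ^ B / Real.log k ^ 2 + C * 2 ^ B * (Real.log k ^ B / (k : ℝ) ^ δ)) := by
    refine hS.trans ?_
    have hn0 : (0 : ℝ) < n := by linarith
    have c1 : (1 + Real.log k) ^ B ≤ 2 ^ B * Real.log k ^ B := by
      rw [← mul_pow]
      exact pow_le_pow_left₀ (by linarith) (by linarith) B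
    have c2 : ((k : ℝ) / n) ^ (1 / 2 : ℝ) ≤ 1 / Real.log k ^ (B + 2) := by
      rw [← Real.sqrt_eq_rpow, Real.sqrt_le_left (by positivity)]
      rw [div_pow, one_pow, ← pow_mul, div_le_div_iff₀ hn0 (by positivity), one_mul,
        show (B + 2) * 2 = 2 * B + 4 by ring]
      exact hn1
    have c3 : (k : ℝ) ^ (-δ) = 1 / (k : ℝ) ^ δ := by
      rw [Real.rpow_neg hk0.le, one_div]
    rw [c3]
    have hC0 : 0 ≤ C := by linarith
    have hkδ : 0 < (k : ℝ) ^ δ := Real.rpow_pos_of_pos hk0 _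
    calc C * k * (1 + Real.log k) ^ B * (((k : ℝ) / n) ^ (1 / 2 : ℝ) + 1 / (k : ℝ) ^ δ)
        ≤ C * k * (2 ^ B * Real.log k ^ B) * (1 / Real.log k ^ (B + 2) + 1 / (k : ℝ) ^ δ) := by
          gcongr
      _ = k * (C * 2 ^ B / Real.log k ^ 2 + C * 2 ^ B * (Real.log k ^ B / (k : ℝ) ^ δ)) := by
          field_simp
          ring
  -- the end
  have hba : (k : ℝ) / 20 - 1 ≤ (b : ℝ) - a := by
    have h1 : (3 * k : ℝ) / 5 - 1 ≤ b := by
      have : 3 * k ≤ 5 * b + 4 := by omega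
      have : (3 * k : ℝ) ≤ 5 * b + 4 := by exact_mod_cast this
      linarith
    have h2 : (a : ℝ) ≤ 11 * k / 20 := by
      have : 20 * a ≤ 11 * k := by omega
      have : (20 * a : ℝ) ≤ 11 * k := by exact_mod_cast this
      linarith
    linarith
  have hsq : Real.sqrt k * Real.log k = k * (Real.log k / (k : ℝ) ^ (1 / 2 : ℝ)) := by
    rw [← Real.sqrt_eq_rpow]
    have hs : 0 < Real.sqrt k := Real.sqrt_pos.2 hk0
    field_simp
    rw [Real.sq_sqrt hk0.le]
  have hfin : (k : ℝ) * (C * 2 ^ B / Real.log k ^ 2 + C * 2 ^ B * (Real.log k ^ B / (k : ℝ) ^ δ) +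
      3 * (Real.log k / (k : ℝ) ^ (1 / 2 : ℝ)) + 1 / 2 / (k : ℝ) + 1 / Real.log k) < k * (1 / 40) :=
    mul_lt_mul_of_pos_left hnum hk0
  have e5 : (k : ℝ) * (1 / 2 / (k : ℝ)) = 1 / 2 := by field_simp
  have e6 : (k : ℝ) * (1 / Real.log k) = k / Real.log k := by ring
  have e7 : (k : ℝ) * (C * 2 ^ B / Real.log k ^ 2 + C * 2 ^ B * (Real.log k ^ B / (k : ℝ) ^ δ) +
      3 * (Real.log k / (k : ℝ) ^ (1 / 2 : ℝ)) + 1 / 2 / (k : ℝ) + 1 / Real.log k) =
      k * (C * 2 ^ B / Real.log k ^ 2 + C * 2 ^ B * (Real.log k ^ B / (k : ℝ) ^ δ)) +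
      3 * (Real.sqrt k * Real.log k) + 1 / 2 + k / Real.log k := by
    rw [hsq]
    linear_combination e5 + e6
  rw [e7] at hfin
  rw [hsum] at hup
  linarith

end Pool.Agent.DFO
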